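import Pool.Agent.Helper6.CS.Goals1

/-!
# Packet CS-SHS (MP_81e84b_lc): the induction step of Shelah's lemma
-/

namespace Pool.Agent.Helper57.CS

open Pool.Agent.Helper6.CS

set_option synthInstance.maxSize 1000000000

variable {M : Type} [World M]

theorem len_rep (c n : M) : (rep c n).len = n := by
  unfold rep
  rw [Wd.len_of]

theorem get_rep (c n : M) {i : M} (h : i < n) : (rep c n).get i = c := by
  unfold rep
  rw [Wd.get_of_lt _ _ h]

theorem rep_append (c x y : M) : rep c x ++ rep c y = rep c (x + y) := by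
  refine Wd.ext' (by rw [Wd.len_append, len_rep, len_rep, len_rep]) fun i hi => ?_
  rw [Wd.len_append, len_rep, len_rep] at hi
  rw [get_rep _ _ hi]
  rcases Wd.lt_cases hi with h | ⟨j, hj, rfl⟩
  · rw [Wd.get_append_left _ _ (by rwa [len_rep]), get_rep _ _ h]
  · have h1 : x + j = (rep c x).len + j := by rw [len_rep]
    rw [h1, Wd.get_append_right, get_rep _ _ hj]

theorem over_rep {c n L : M} (h : c < L) : Over L (rep c n) := by
  intro i hi
  rw [len_rep] at hi
  rw [get_rep _ _ hi]
  exact h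

instance ifn_rep (c : M) : IFn M fun i : M => rep c i := by
  unfold rep
  infer_instance

instance ifn_rep' {α : Type} [Cod M α] (c : M) {f : α → M} [hf : IFn M f] :
    IFn M fun a => rep c (f a) := by
  unfold rep
  infer_instance

/-- The word `b^i (b+1)^(n-i)`. -/
noncomputable def uu (b n i : M) : Wd M := rep b i ++ rep (b + 1) (n - i)

instance ifn_uu (b n : M) : IFn M fun i : M => uu b n i := by
  unfold uu
  infer_instance

theorem len_uu {b n i : M} (h : i ≤ n) : (uu b n i).len = n := by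
  unfold uu
  rw [Wd.len_append, len_rep, len_rep, add_tsub_cancel_of_le h]

theorem over_uu {b n i L : M} (h : b + 2 ≤ L) : Over L (uu b n i) := by
  unfold uu
  have h1 : b < L := lt_of_lt_of_le (lt_add_of_pos_right b two_pos) h
  have h2 : b + 1 < L := by
    refine lt_of_lt_of_le ?_ h
    have : (1 : M) < 2 := one_lt_two
    exact add_lt_add_right this b
  exact Over.append_iff.2 ⟨over_rep h1, over_rep h2⟩

theorem t_SHS (hSHB : G_SHB) (hBND : G_BND) (hCDF : G_CDF) (hPH : G_PH) : G_SHS := by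
  classical
  intro M _ L b m hL ih r
  have hbL : b < L := lt_of_lt_of_le (lt_add_of_pos_right b two_pos) hL
  rcases (World.zero_le' r).lt_or_eq with hr | hr
  swap
  · subst hr
    refine ⟨0, fun e he => ?_⟩
    have := he (Wd.nil M) (Over.nil _) (by simp)
    exact absurd this (not_lt.2 (World.zero_le' _))
  obtain ⟨K, hK⟩ := hBND M L m
  obtain ⟨n, hn⟩ := hBND M r K
  obtain ⟨K₂, hK₂⟩ := hBND M L n
  obtain ⟨r', hr'⟩ := hBND M r K₂
  obtain ⟨N', hN'⟩ := ih r'
  refine ⟨n + N', ?_⟩
  intro e he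
  have hfi : IFn M fun p : Wd M × M =>
      (if Over L (dec p.2) ∧ (dec p.2).len ≤ n then apn e (dec p.2 ++ p.1) else 0) := by
    infer_instance
  have hV : IFn M fun z : Wd M => Wd.of K₂ fun j : M =>
      if Over L (dec j) ∧ (dec j).len ≤ n then apn e (dec j ++ z) else 0 :=
    IFn.of (k := fun _ : Wd M => K₂) (g := fun (z : Wd M) (j : M) =>
      if Over L (dec j) ∧ (dec j).len ≤ n then apn e (dec j ++ z) else 0)
  have hVz : ∀ z : Wd M, IFn M fun j : M =>
      if Over L (dec j) ∧ (dec j).len ≤ n then apn e (dec j ++ z) else 0 := by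
    intro z
    infer_instance
  have hVlt : ∀ z : Wd M, Over L z → z.len ≤ N' → (Cod.cd (Wd.of K₂ fun j : M =>
      if Over L (dec j) ∧ (dec j).len ≤ n then apn e (dec j ++ z) else 0) : M) < r' := by
    intro z hz hzl
    have := hVz z
    refine hr' _ ?_ (by rw [Wd.len_of])
    intro i hi
    rw [Wd.len_of] at hi
    rw [Wd.get_of_lt _ _ hi]
    split_ifs with hc
    · refine he _ (Over.append_iff.2 ⟨hc.1, hz⟩) ?_
      rw [Wd.len_append]
      exact add_le_add hc.2 hzl
    · exact hr
  have hcdV : IFn M fun z : Wd M => (Cod.cd (Wd.of K₂ fun j : M =>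
      if Over L (dec j) ∧ (dec j).len ≤ n then apn e (dec j ++ z) else 0) : M) := IFn.cd
  obtain ⟨e', he'⟩ := (hCDF M L N').1 _ hcdV
  obtain ⟨h', hS', hinv'⟩ := hN' e' (fun z hz hl => by
    rw [he' z hz hl]
    exact hVlt z hz hl)
  have hov : ∀ a : Wd M, Over L a → a.len ≤ m → Over L (apw h' a) ∧ (apw h' a).len ≤ N' :=
    fun a ha hl => hS'.1 a L hL le_rfl ha hl
  have key1 : ∀ α a : Wd M, Over L α → α.len ≤ n → Over L a → a.len ≤ m →
      apn e (α ++ apw h' a) = apn e (α ++ apw h' (Wd.sub (b + 1) b a)) := by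
    intro α a hα hαl ha hal
    have hsub : Over L (Wd.sub (b + 1) b a) := Over.sub' hbL ha
    have hsl : (Wd.sub (b + 1) b a).len ≤ m := by rwa [Wd.len_sub]
    have h1 := hinv' a ha hal
    rw [he' _ (hov a ha hal).1 (hov a ha hal).2, he' _ (hov _ hsub hsl).1 (hov _ hsub hsl).2] at h1
    have h2 := Cod.inj h1
    have h3 := congrArg (fun w : Wd M => w.get (Cod.cd α)) h2
    have i1 := hVz (apw h' a)
    have i2 := hVz (apw h' (Wd.sub (b + 1) b a))
    rw [Wd.get_of_lt _ _ (hK₂ α hα hαl), Wd.get_of_lt _ _ (hK₂ α hα hαl), dec_cd,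
      if_pos ⟨hα, hαl⟩, if_pos ⟨hα, hαl⟩] at h3
    exact h3
  have hUfi : IFn M fun p : M × M =>
      (if Over L (dec p.2) ∧ (dec p.2).len ≤ m then apn e (uu b n p.1 ++ apw h' (dec p.2)) else 0) := by
    infer_instance
  have hUi : ∀ i : M, IFn M fun j : M =>
      if Over L (dec j) ∧ (dec j).len ≤ m then apn e (uu b n i ++ apw h' (dec j)) else 0 := by
    intro i
    infer_instance
  have hU : IFn M fun i : M => Wd.of K fun j : M =>
      if Over L (dec j) ∧ (dec j).len ≤ m then apn e (uu b n i ++ apw h' (dec j)) else 0 :=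
    IFn.of (k := fun _ : M => K) (g := fun (i : M) (j : M) =>
      if Over L (dec j) ∧ (dec j).len ≤ m then apn e (uu b n i ++ apw h' (dec j)) else 0)
  have hUlt : ∀ i : M, i ≤ n → (Cod.cd (Wd.of K fun j : M =>
      if Over L (dec j) ∧ (dec j).len ≤ m then apn e (uu b n i ++ apw h' (dec j)) else 0) : M) < n := by
    intro i hin
    have := hUi i
    refine hn _ ?_ (by rw [Wd.len_of])
    intro j hj
    rw [Wd.len_of] at hj
    rw [Wd.get_of_lt _ _ hj]
    split_ifs with hc
    · refine he _ (Over.append_iff.2 ⟨over_uu hL, (hov _ hc.1 hc.2).1⟩) ?_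
      rw [Wd.len_append, len_uu hin]
      exact add_le_add le_rfl (hov _ hc.1 hc.2).2
    · exact hr
  have hg : IFn M fun i : M => if i ≤ n then (Cod.cd (Wd.of K fun j : M =>
      if Over L (dec j) ∧ (dec j).len ≤ m then apn e (uu b n i ++ apw h' (dec j)) else 0) : M)
      else 0 := by
    have h1 : IFn M fun i : M => (Cod.cd (Wd.of K fun j : M =>
      if Over L (dec j) ∧ (dec j).len ≤ m then apn e (uu b n i ++ apw h' (dec j)) else 0) : M) :=
      IFn.cd
    exact IFn.ite
  obtain ⟨i, i', hii, hin', hgi⟩ := hPH M _ hg n (fun i hi => by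
    simp only [if_pos hi]
    exact hUlt i hi)
  have hin : i ≤ n := hii.le.trans hin'
  simp only [if_pos hin, if_pos hin'] at hgi
  have hUU := Cod.inj hgi
  have key2 : ∀ a : Wd M, Over L a → a.len ≤ m →
      apn e (uu b n i ++ apw h' a) = apn e (uu b n i' ++ apw h' a) := by
    intro a ha hal
    have h3 := congrArg (fun w : Wd M => w.get (Cod.cd a)) hUU
    have i1 := hUi i
    have i2 := hUi i'
    rw [Wd.get_of_lt _ _ (hK a ha hal), Wd.get_of_lt _ _ (hK a ha hal), dec_cd,
      if_pos ⟨ha, hal⟩, if_pos ⟨ha, hal⟩] at h3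
    exact h3
  obtain ⟨h, hS, -, hcons⟩ := hSHB M L b m n N' h' i i' hL hii hin' hS'
  refine ⟨h, hS, ?_⟩
  intro a ha hal
  by_cases h0 : a.len = 0
  · rw [Wd.eq_nil_of_len h0, Wd.sub_nil]
  obtain ⟨t, ht, hlt⟩ := Wd.exists_cons h0
  have he0 : a.get 0 < L := ha 0 (lt_of_le_of_ne (World.zero_le' _) (Ne.symm h0))
  generalize a.get 0 = e₀ at ht he0
  subst ht
  have hto : Over L t := (Over.append_iff.1 ha).2
  have htl : t.len ≤ m := by
    rw [hlt] at hal
    exact le_of_add_le_add_right hal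
  have hsub : Over L (Wd.sub (b + 1) b t) := Over.sub' hbL hto
  have hsl : (Wd.sub (b + 1) b t).len ≤ m := by rwa [Wd.len_sub]
  have hb2 : blk b i i' n b = uu b n i' := by
    unfold blk uu
    rw [rep_append, add_tsub_cancel_of_le hii.le]
  have hb1 : blk b i i' n (b + 1) = uu b n i := by
    unfold blk uu
    rw [Wd.append_assoc, rep_append]
    congr 2
    obtain ⟨x, rfl⟩ := World.exists_add i i' hii.le
    obtain ⟨y, rfl⟩ := World.exists_add (i + x) n hin'
    rw [add_tsub_cancel_left, add_tsub_cancel_left, add_assoc, add_tsub_cancel_left]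
  rw [hcons e₀ t he0 hto htl, Wd.sub_append, Wd.sub_sg]
  by_cases hc : e₀ = b + 1
  · rw [if_pos hc, hcons b _ hbL hsub hsl, hc, hb1, hb2, key2 t hto htl]
    exact key1 _ _ (over_uu hL) (le_of_eq (len_uu hin')) hto htl
  · rw [if_neg hc, hcons e₀ _ he0 hsub hsl]
    refine key1 _ _ ?_ (le_of_eq ?_) hto htl
    · unfold blk
      have h2 : b + 1 < L := by
        refine lt_of_lt_of_le ?_ hL
        have : (1 : M) < 2 := one_lt_two
        exact add_lt_add_right this b
      exact Over.append_iff.2 ⟨Over.append_iff.2 ⟨over_rep hbL, over_rep he0⟩, over_rep h2⟩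
    · unfold blk
      rw [Wd.len_append, Wd.len_append, len_rep, len_rep, len_rep,
        add_tsub_cancel_of_le hii.le, add_tsub_cancel_of_le hin']

end Pool.Agent.Helper57.CS
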